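import Mathlib
import Pool.Agent.H29.Gyro
import Pool.Agent.H29.QuatM

namespace Pool.Agent.Results.MP_87a692_al.Definite

open Matrix hiding comp
open Pool.Agent.Results.MP_554556_an.Definite Pool.Agent.H29.Gyro
open Pool.Agent.H29.QuatM (NonStd nonstd phi_one)

variable {n : ℕ}

/-- hypothesis (B) -/
def HypB (φ : H → H) (l : ℕ) (A : ℕ → Mt (Fin n)) : Prop :=
  IsUnit (A l) ∧ ∀ k ≤ l, (Even k → ((A k).map φ)ᵀ = A k) ∧ (Odd k → ((A k).map φ)ᵀ = -A k)

/-- stable boundedness within the class (B) -/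
def StabB (φ : H → H) (l : ℕ) (A : ℕ → Mt (Fin n)) : Prop :=
  ∃ ε > 0, ∀ A', HypB φ l A' → (∀ j ≤ l, ∀ a b, ‖A' j a b - A j a b‖ < ε) → Bdd l A'

/-- `(G, φ)`-definite sets -/
def DefPhi {ι : Type} [Fintype ι] (φ : H → H) (G : Mt ι) (S : Set (ι → H)) : Prop :=
  ∀ x ∈ S, x ≠ 0 → (fun i => φ (x i)) ⬝ᵥ G *ᵥ x ≠ 0

lemma beta {φ : H →ₗ[ℝ] H} (h : NonStd φ) : ∃ β : H, φ β = -β ∧ ‖β‖ = 1 := by
  obtain ⟨q, hq⟩ : ∃ q, q - φ q ≠ 0 := by
    by_contra hc
    push Not at hc
    have e : ∀ q, φ q = q := fun q => (sub_eq_zero.1 (hc q)).symm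
    have := h.1 ⟨0, 1, 0, 0⟩ ⟨0, 0, 1, 0⟩
    simp only [e] at this
    have := congrArg QuaternionAlgebra.imK this
    norm_num at this
  refine ⟨‖q - φ q‖⁻¹ • (q - φ q), ?_, norm_smul_inv_norm hq⟩
  rw [map_smul, map_sub, h.2.1, ← smul_neg, neg_sub]

theorem result (φ : H →ₗ[ℝ] H) (hφ : NonStd φ) (n l : ℕ) (hl : 2 ≤ l) (A : ℕ → Mt (Fin n))
    (hB : HypB φ l A) (ht : StabB φ l A) (a : H) (ha : IsEig (comp l A) a) :
    DefPhi φ (gm l A) (Root (comp l A) a) := by
  obtain ⟨L, rfl⟩ : ∃ L, l = L + 1 := ⟨l - 1, by omega⟩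
  obtain ⟨β, hβ, hn⟩ := beta hφ
  have hst := nonstd hφ hβ hn
  have hbb : β * β = -1 := by
    have := hst 1
    rw [phi_one φ.toAddMonoidHom hφ.1 hφ.2.1 |> (fun e => (e : φ 1 = 1)), star_one, mul_one,
      neg_mul] at this
    exact neg_eq_iff_eq_neg.1 this.symm
  have hb1 : ∀ x : H, β * (β * x) = -x := fun x => by rw [← mul_assoc, hbb, neg_one_mul]
  have hφq : ∀ q, φ q = -(β * star q * β) := fun q => by
    rw [hst q, ← mul_assoc, ← mul_assoc, mul_neg, hbb, neg_neg, one_mul, mul_assoc, hbb]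
    simp
  have hsb : star β = -β := by rw [hst, hβ, neg_mul_neg, hbb, neg_one_mul]
  have hβ0 : β ≠ 0 := fun h => by simp [h] at hn
  have hT : ∀ X : Mt (Fin n), (β • X)ᴴ = -(β • (X.map φ)ᵀ) := fun X => by
    ext1 i j
    simp only [conjTranspose_apply, Matrix.smul_apply, smul_eq_mul, transpose_apply, map_apply,
      star_mul, hsb, hφq, mul_neg, mul_assoc, hb1, neg_neg, Matrix.neg_apply]
  have hbm : ∀ X : Mt (Fin n), β • β • X = -X := fun X => by rw [smul_smul, hbb, neg_one_smul]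
  have hsym : ∀ B : ℕ → Mt (Fin n), HypB φ (L + 1) B → SymG (L + 1) fun k => β • B k :=
    fun B h k hk => ⟨fun h' => by rw [hT, (h.2 k hk).2 h', smul_neg, neg_neg],
      fun h' => by rw [hT, (h.2 k hk).1 h']⟩
  let b : (Mt (Fin n))ˣ := ⟨β • 1, -(β • 1), by simp [smul_mul_smul_comm, hbm],
    by simp [smul_mul_smul_comm, hbm]⟩
  have hb : ∀ X : Mt (Fin n), β • X = b * X := fun X => by simp [b]
  obtain ⟨u, hu⟩ := hB.1
  have hcomp : comp (L + 1) (fun k => β • A k) = comp (L + 1) A := by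
    have : ∀ q, Ring.inverse (β • A (L + 1)) * β • A q = Ring.inverse (A (L + 1)) * A q := by
      intro q
      rw [hb, hb, ← hu, ← Units.val_mul, Ring.inverse_unit, Ring.inverse_unit, _root_.mul_inv_rev,
        Units.val_mul, mul_assoc, Units.inv_mul_cancel_left]
    simp only [MP_554556_an.Definite.comp, this]
  have hgm : gm (L + 1) (fun k => β • A k) = β • gm (L + 1) A := by
    ext1 p q
    simp only [gm, of_apply, Matrix.smul_apply, smul_eq_mul]
    split_ifs
    · rcases neg_one_pow_eq_or H p.1.val with h | h <;> simp [h]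
    · simp
  obtain ⟨ε, hε, ht⟩ := ht
  have key := core (hsym A hB) (by rw [hb, ← hu]; exact (b * u).isUnit)
    ⟨ε, hε, fun E0 E1 h0 h1 hsm x hx hx' => ht (fun k => A k - β • pt E0 E1 k) ⟨?_, ?_⟩ ?_ x hx
      ?_⟩ a (by rwa [hcomp])
  · rw [hcomp, hgm] at key
    intro x hx h0 h
    have e : (fun i => φ (x i)) ⬝ᵥ gm (L + 1) A *ᵥ x =
        -(β * (star x ⬝ᵥ (β • gm (L + 1) A) *ᵥ x)) := by
      simp only [smul_mulVec, dotProduct, hφq, Pi.star_apply, Pi.smul_apply, smul_eq_mul,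
        Finset.mul_sum, mul_assoc, neg_mul, Finset.sum_neg_distrib]
    rw [e, neg_eq_zero, mul_eq_zero] at h
    have h2 : qf (β • gm (L + 1) A) x = 0 := by rw [qf, h.resolve_left hβ0, r0]
    rcases key with k | k <;> exact absurd (k x hx h0) (by simp [h2])
  · have : pt E0 E1 (L + 1) = 0 := by
      simp only [pt]
      rw [if_neg (by omega), if_neg (by omega)]
    simpa [this] using hB.1
  · intro k hk
    have e1 : ((A k - β • pt E0 E1 k).map φ)ᵀ = ((A k).map φ)ᵀ + β • (pt E0 E1 k)ᴴ := by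
      have := hT (β • pt E0 E1 k)
      rw [hbm, conjTranspose_neg, neg_inj] at this
      rw [this, hbm]
      ext1 i j
      simp [sub_eq_add_neg]
    dsimp only
    refine ⟨fun h => ?_, fun h => ?_⟩
    · rw [e1, (hB.2 k hk).1 h, sub_eq_add_neg, ← smul_neg]
      simp only [pt]
      split_ifs with h2 h3
      · rw [h0]
      · subst h3; simp at h
      · simp
    · rw [e1, (hB.2 k hk).2 h, neg_sub, sub_eq_neg_add]
      simp only [pt]
      rw [if_neg (by rintro rfl; simp at h)]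
      split_ifs <;> simp [h1]
  · intro j _ i i'
    simp only [Matrix.sub_apply, sub_sub_cancel_left, norm_neg, Matrix.smul_apply, smul_eq_mul,
      norm_mul, hn, one_mul, pt]
    split_ifs
    · exact (hsm i i').1
    · exact (hsm i i').2
    · simpa using hε
  · intro t
    have := hx' t
    have e : lhs (L + 1) (fun k => β • A k + pt E0 E1 k) x t =
        β • lhs (L + 1) (fun k => A k - β • pt E0 E1 k) x t := by
      simp only [lhs, Finset.smul_sum, ← smul_mulVec, smul_sub, hbm, sub_neg_eq_add]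
    rw [e] at this
    exact (smul_eq_zero.1 this).resolve_left hβ0

end Pool.Agent.Results.MP_87a692_al.Definite
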